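import Mathlib
import Pool.Agent.Helper2.AC.Main

/-!
Ordered Ramsey numbers of hypercube orderings: approximate form with linear exponent.
There are orderings `σ d` of `Q_d` such that for every `ε > 0` there is `C` with the following property.
For `N ≥ 2 ^ (C d)`, every 2-colouring of the pairs of `Fin N` and each colour `β` there is an ordered copy in
colour `β` of any given ordered graph `H` with at most `2 ^ d` vertices and degeneracy at most `d`
(for instance the ordered cube itself), or an almost copy of the ordered cube in the other colour: every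
vertex `i` may veto the edges to a set `M i` of at most `ε d` vertices, and all other edges have the
other colour.
-/

namespace Pool.Agent.Results.MP_09b4c2_co.AlmostCubes

theorem result : ∃ σ : ∀ d : ℕ, Fin (2 ^ d) ≃ (Fin d → Bool), ∀ ε : ℝ, 0 < ε →
    ∃ C : ℕ, ∀ d : ℕ, 1 ≤ d →
    ∀ (h : ℕ), h ≤ 2 ^ d → ∀ (H : SimpleGraph (Fin h)) (ρ : Fin h → ℕ), Function.Injective ρ →
    (∀ v, {w | H.Adj v w ∧ ρ w < ρ v}.ncard ≤ d) → ∀ N : ℕ, 2 ^ (C * d) ≤ N →
    ∀ (f : Fin N → Fin N → Bool) (β : Bool),
      (∃ g : Fin h → Fin N, StrictMono g ∧ ∀ i j, i < j → H.Adj i j → f (g i) (g j) = β) ∨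
      ∃ g : Fin (2 ^ d) → Fin N, StrictMono g ∧
        ∃ M : Fin (2 ^ d) → Finset (Fin (2 ^ d)), (∀ i, ((M i).card : ℝ) ≤ ε * d) ∧
          ∀ i j : Fin (2 ^ d), i < j → hammingDist (σ d i) (σ d j) = 1 →
            f (g i) (g j) = !β ∨ j ∈ M i ∨ i ∈ M j :=
  Pool.Agent.Helper2.AC.almost_final

end Pool.Agent.Results.MP_09b4c2_co.AlmostCubes
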