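import Mathlib
import Pool.Agent.Helper53.OC.Final

/-!
Ordered Ramsey numbers of hypercube orderings: for every `d ≥ 2` some ordering of `Q_d` has ordered
Ramsey number at most `d ^ (C d)`, that is `2 ^ O(d log d)`.
The ordering is given by a bijection `σ` from `Fin (2 ^ d)` to the vertices of the cube,
and a colouring of the pairs `x < y` of `Fin N` by `f x y`.
-/

namespace Pool.Agent.Results.MP_09b4c2_co.CubeOrderingLog

theorem result : ∃ C : ℕ, ∀ d : ℕ, 2 ≤ d →
    ∃ σ : Fin (2 ^ d) ≃ (Fin d → Bool), ∀ N : ℕ, d ^ (C * d) ≤ N →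
      ∀ f : Fin N → Fin N → Bool,
        ∃ g : Fin (2 ^ d) → Fin N, StrictMono g ∧
          ∃ b : Bool, ∀ i j : Fin (2 ^ d), i < j →
            hammingDist (σ i) (σ j) = 1 → f (g i) (g j) = b :=
  Pool.Agent.Helper53.OC.final

end Pool.Agent.Results.MP_09b4c2_co.CubeOrderingLog
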