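import Mathlib
import Pool.Agent.Helper32.VC.Main

/-!
Ordered Ramsey numbers of hypercube orderings, colourings of small VC-dimension: a 2-colouring of the pairs of
`{1, ..., N}`, `N ≥ 2 ^ (C d)`, without a monochromatic ordered copy of `(Q_d, σ_d)` contains every
edge-coloured ordered graph with at most `2 ^ (A d)` vertices and degeneracy `D`, `d ^ D ≤ 2 ^ (A d)`; in
particular it has VC-dimension at least `D`.
-/

namespace Pool.Agent.Results.MP_09b4c2_co.LowVCDimension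

theorem result : ∃ σ : ∀ d : ℕ, Fin (2 ^ d) ≃ (Fin d → Bool), ∀ A : ℕ, ∃ C : ℕ, ∀ d : ℕ, 2 ≤ d →
    ∀ N : ℕ, 2 ^ (C * d) ≤ N → ∀ f : Fin N → Fin N → Bool,
    (∃ (b : Bool) (g : Fin (2 ^ d) → Fin N), StrictMono g ∧
      ∀ i j : Fin (2 ^ d), i < j → hammingDist (σ d i) (σ d j) = 1 → f (g i) (g j) = b) ∨
    ((∀ (h D : ℕ), h ≤ 2 ^ (A * d) → d ^ D ≤ 2 ^ (A * d) → ∀ (H : SimpleGraph (Fin h))
      (ρ : Fin h → ℕ), Function.Injective ρ → (∀ v, {w | H.Adj v w ∧ ρ w < ρ v}.ncard ≤ D) →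
      ∀ c : Fin h → Fin h → Bool, ∃ g : Fin h → Fin N, StrictMono g ∧
        ∀ i j, i < j → H.Adj i j → f (g i) (g j) = c i j) ∧
    ∀ D : ℕ, d ^ D ≤ 2 ^ (A * d) →
      (∃ s : Fin D → Fin N, StrictMono s ∧
        ∀ T : Fin D → Bool, ∃ x : Fin N, (∀ i, x < s i) ∧ ∀ i, f x (s i) = T i) ∧
      ∃ s : Fin D → Fin N, StrictMono s ∧
        ∀ T : Fin D → Bool, ∃ x : Fin N, (∀ i, s i < x) ∧ ∀ i, f (s i) x = T i) :=
  Pool.Agent.Helper32.VC.main

end Pool.Agent.Results.MP_09b4c2_co.LowVCDimension
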