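import Mathlib
import Pool.Agent.Helper2.AC.Main

/-!
Off-diagonal ordered Ramsey numbers of hypercube orderings: there is `C` such that for every `d ≥ 2` some
ordering of `Q_d` satisfies `r_<(H, Q_d) ≤ 2 ^ (C d)` for all ordered graphs `H` with at most `2 ^ d`
vertices and degeneracy `D`, `d ^ D ≤ 2 ^ d`.
-/

namespace Pool.Agent.Results.MP_09b4c2_co.OffDiagonal

theorem result : ∃ C : ℕ, ∀ d : ℕ, 2 ≤ d → ∃ σ : Fin (2 ^ d) ≃ (Fin d → Bool),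
    ∀ (h D : ℕ), h ≤ 2 ^ d → d ^ D ≤ 2 ^ d → ∀ (H : SimpleGraph (Fin h)) (ρ : Fin h → ℕ),
    Function.Injective ρ → (∀ v, {w | H.Adj v w ∧ ρ w < ρ v}.ncard ≤ D) →
    ∀ N : ℕ, 2 ^ (C * d) ≤ N → ∀ (f : Fin N → Fin N → Bool) (β : Bool),
      (∃ g : Fin h → Fin N, StrictMono g ∧ ∀ i j, i < j → H.Adj i j → f (g i) (g j) = β) ∨
      ∃ g : Fin (2 ^ d) → Fin N, StrictMono g ∧
        ∀ i j : Fin (2 ^ d), i < j → hammingDist (σ i) (σ j) = 1 → f (g i) (g j) = !β :=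
  Pool.Agent.Helper2.AC.offDiag_final

end Pool.Agent.Results.MP_09b4c2_co.OffDiagonal
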